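import Mathlib
import Pool.Agent.Glaisher.Final

/-!
The value of the Glaisher number `G_{p-1}` modulo `p²` in terms of `4 p = T² + 3 S²`, the
resulting criterion for `p² ∣ G_{p-1}`, and the fact that no prime which is a difference of two
consecutive cubes satisfies it.
-/

namespace Pool.Agent.Results.MP_c5ef13_nt.Evaluation

open Glaisher

theorem result :
    (∀ p : ℕ, p.Prime → p % 3 = 1 → ∀ T S : ℤ, 4 * (p : ℤ) = T ^ 2 + 3 * S ^ 2 →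
      CongSq p ((T : ℚ) ^ 2 * glaisher (p - 1)) ((T : ℚ) ^ 2 - (T : ℚ) ^ (p + 1) - p) ∧
      (CongSq p (glaisher (p - 1)) 0 ↔ (p : ℤ) ^ 2 ∣ T ^ (p + 1) + p - T ^ 2)) ∧
    (∀ p : ℕ, p.Prime → (∃ x : ℤ, (p : ℤ) = (x + 1) ^ 3 - x ^ 3) →
      CongSq p (glaisher (p - 1)) (-(p : ℚ)) ∧ ¬ CongSq p (glaisher (p - 1)) 0) := by
  refine ⟨fun p hp h3 T S h => ⟨eval_main hp h3 h, q1_iff_dvd hp h3 h⟩, ?_⟩
  rintro p hp ⟨x, hx⟩
  exact cuban hp ⟨x, by rw [hx]; ring⟩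

end Pool.Agent.Results.MP_c5ef13_nt.Evaluation
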