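import Mathlib
import Pool.Agent.Glaisher.Final2

/-!
Polynomial and Pell families of primes `p` with `4 p = T² + 3 S²`: for every bound `n`, only
finitely many members satisfy `G_{p-1} ≡ 0 (mod p²)` with `binom(2N, N)` of order at most `n`
modulo `p`, apart from the primes with `p² = 3 x² + 3 x + 1`.
-/

namespace Pool.Agent.Results.MP_c5ef13_nt.ParametricFamilies

open Glaisher Polynomial

theorem result (n : ℕ) :
    (∀ f g : ℤ[X], 0 < f.natDegree ∨ 0 < g.natDegree →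
      {t : ℤ | ∃ p : ℕ, p.Prime ∧ p % 3 = 1 ∧
        4 * (p : ℤ) = (f.eval t) ^ 2 + 3 * (g.eval t) ^ 2 ∧
        CongSq p (glaisher (p - 1)) 0 ∧ orderOf ((cc p : ℕ) : ZMod p) ≤ n}.Finite) ∧
    (∀ d : ℕ, ¬ IsSquare d → ∀ f₁ f₂ g₁ g₂ : ℚ[X],
      {p : ℕ | p.Prime ∧ p % 3 = 1 ∧ CongSq p (glaisher (p - 1)) 0 ∧
        orderOf ((cc p : ℕ) : ZMod p) ≤ n ∧ (¬ ∃ x : ℤ, (p : ℤ) ^ 2 = 3 * x ^ 2 + 3 * x + 1) ∧
        ∃ x y T S : ℤ, x ^ 2 - d * y ^ 2 = 1 ∧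
          (T : ℚ) = f₁.eval (x : ℚ) + f₂.eval (x : ℚ) * y ∧
          (S : ℚ) = g₁.eval (x : ℚ) + g₂.eval (x : ℚ) * y ∧
          4 * (p : ℤ) = T ^ 2 + 3 * S ^ 2}.Finite) :=
  ⟨fun f g h => families_q1 f g h n, fun _ hd f₁ f₂ g₁ g₂ => pell_q1 hd f₁ f₂ g₁ g₂ n⟩

end Pool.Agent.Results.MP_c5ef13_nt.ParametricFamilies
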