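import Mathlib
import Pool.Agent.Glaisher.Final2

/-!
Primes `p` with `4 p = T² + 3 S²` for a point `(T, S)` on a fixed plane curve of degree at most
three, and `G_{p-1} ≡ 0 (mod p²)`: either `p² = 3 x² + 3 x + 1`, or the order of `binom(2N, N)`
modulo `p` is at least a constant times `log p`.
-/

namespace Pool.Agent.Results.MP_c5ef13_nt.PlaneCurves

open Glaisher

theorem result (F : MvPolynomial (Fin 2) ℤ) (hF : F ≠ 0) : ∃ c : ℝ, 0 < c ∧
    ∀ p : ℕ, p.Prime → p % 3 = 1 → ∀ T S : ℤ, 4 * (p : ℤ) = T ^ 2 + 3 * S ^ 2 →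
      MvPolynomial.eval ![T, S] F = 0 → CongSq p (glaisher (p - 1)) 0 →
      (∃ x : ℤ, (p : ℤ) ^ 2 = 3 * x ^ 2 + 3 * x + 1) ∨
      c * Real.log p ≤ orderOf ((cc p : ℕ) : ZMod p) ∨
      (4 ≤ F.totalDegree ∧
        (Nat.lcm (orderOf ((cc p : ℕ) : ZMod p)) 6).totient ≤ 2 * F.totalDegree) :=
  curve_q1 F hF

end Pool.Agent.Results.MP_c5ef13_nt.PlaneCurves
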