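import Mathlib
import Pool.Agent.Glaisher.Final

/-!
The primes `p ≡ 1 (mod 3)` with `G_{p-1} ≡ 0 (mod p²)` for which the order of `binom(2N, N)`
modulo `p`, `N = (p - 1) / 3`, divides `12`, `18` or `24` are exactly the primes with
`p² = 3 x² + 3 x + 1`.
-/

namespace Pool.Agent.Results.MP_c5ef13_nt.SmallOrder

open Glaisher

theorem result (p : ℕ) (hp : p.Prime) (h3 : p % 3 = 1) :
    (CongSq p (glaisher (p - 1)) 0 ∧ (orderOf ((cc p : ℕ) : ZMod p) ∣ 12 ∨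
      orderOf ((cc p : ℕ) : ZMod p) ∣ 18 ∨ orderOf ((cc p : ℕ) : ZMod p) ∣ 24)) ↔
    ∃ x : ℤ, (p : ℤ) ^ 2 = 3 * x ^ 2 + 3 * x + 1 :=
  small_order hp h3

end Pool.Agent.Results.MP_c5ef13_nt.SmallOrder
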